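import Mathlib
import Pool.Agent.H499R2.HL.E

/-! Almost locally constant properties and sequences with a mean in almost all short intervals. -/

set_option autoImplicit false

namespace Pool.Agent.TH465.OM
open Finset Filter Topology
open Pool.Agent.H499R2.ND (Dn cnt cnt_eq cnt_mono cnt_or zd_iff zd_or)

open scoped Classical in
/-- the indicator function -/
noncomputable def ind (P : ℕ → Prop) (n : ℕ) : ℝ := if P n then 1 else 0

theorem ind_abs (P : ℕ → Prop) (n : ℕ) : |ind P n| ≤ 1 := by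
  unfold ind
  split_ifs <;> simp

theorem ind_nonneg (P : ℕ → Prop) (n : ℕ) : 0 ≤ ind P n := by
  unfold ind
  split_ifs <;> simp

theorem ind_of {P : ℕ → Prop} {n : ℕ} (h : P n) : ind P n = 1 := by
  unfold ind
  rw [if_pos h]

theorem ind_not {P : ℕ → Prop} {n : ℕ} (h : ¬ P n) : ind P n = 0 := by
  unfold ind
  rw [if_neg h]

theorem sum_ind (P : ℕ → Prop) (N : ℕ) : ∑ n ∈ Icc 1 N, ind P n = cnt P N := by
  classical
  rw [cnt_eq, card_filter]
  push_cast
  refine sum_congr rfl fun n _ => ?_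
  by_cases h : P n
  · rw [ind_of h, if_pos h]
  · rw [ind_not h, if_neg h]

/-- mean values -/
def Mn (f : ℕ → ℝ) (l : ℝ) : Prop := Tendsto (fun N : ℕ => (∑ n ∈ Icc 1 N, f n) / N) atTop (𝓝 l)

theorem mn_ind {P : ℕ → Prop} {l : ℝ} : Mn (ind P) l ↔ Dn P l := by
  unfold Mn Dn
  simp_rw [sum_ind]

theorem mn_add {f g : ℕ → ℝ} {k l : ℝ} (hf : Mn f k) (hg : Mn g l) : Mn (fun n => f n + g n) (k + l) := by
  unfold Mn at *
  refine (hf.add hg).congr fun N => ?_
  rw [sum_add_distrib, add_div]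

theorem mn_smul {f : ℕ → ℝ} {k : ℝ} (c : ℝ) (hf : Mn f k) : Mn (fun n => c * f n) (c * k) := by
  unfold Mn at *
  refine (hf.const_mul c).congr fun N => ?_
  rw [← mul_sum, mul_div_assoc]

theorem mn_congr {f g : ℕ → ℝ} {k : ℝ} (hf : Mn f k) (h : ∀ n, 1 ≤ n → f n = g n) : Mn g k := by
  unfold Mn at *
  refine hf.congr fun N => ?_
  congr 1
  refine sum_congr rfl fun n hn => ?_
  exact h n (mem_Icc.1 hn).1

theorem mn_sum {ι : Type*} (A : Finset ι) {f : ι → ℕ → ℝ} (h : ∀ i ∈ A, Mn (f i) 0) :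
    Mn (fun n => ∑ i ∈ A, f i n) 0 := by
  unfold Mn at *
  have h1 := tendsto_finsetSum A h
  rw [sum_const_zero] at h1
  refine h1.congr fun N => ?_
  rw [← sum_div, sum_comm]

theorem mn_zero_of {f : ℕ → ℝ} (h : ∀ ε : ℝ, 0 < ε → ∃ N0 : ℕ, ∀ N : ℕ, N0 ≤ N → |∑ n ∈ Icc 1 N, f n| ≤ ε * N) :
    Mn f 0 := by
  unfold Mn
  rw [Metric.tendsto_atTop]
  intro ε hε
  obtain ⟨N0, h0⟩ := h (ε / 2) (by positivity)
  refine ⟨N0 + 1, fun N hN => ?_⟩
  have hN0 : (0 : ℝ) < N := by exact_mod_cast (by omega : 0 < N)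
  have h1 := h0 N (by omega)
  rw [Real.dist_eq, sub_zero, abs_div, abs_of_pos hN0, div_lt_iff₀ hN0]
  nlinarith

theorem of_mn_zero {f : ℕ → ℝ} (h : Mn f 0) {ε : ℝ} (hε : 0 < ε) :
    ∃ N0 : ℕ, ∀ N : ℕ, N0 ≤ N → |∑ n ∈ Icc 1 N, f n| ≤ ε * N := by
  unfold Mn at h
  obtain ⟨N0, h0⟩ := Metric.tendsto_atTop.1 h ε hε
  refine ⟨N0 + 1, fun N hN => ?_⟩
  have hN0 : (0 : ℝ) < N := by exact_mod_cast (by omega : 0 < N)
  have h1 := h0 N (by omega)
  rw [Real.dist_eq, sub_zero, abs_div, abs_of_pos hN0, div_lt_iff₀ hN0] at h1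
  exact h1.le

theorem dn_shift {Q : ℕ → Prop} (h : Dn Q 0) (j : ℕ) : Dn (fun n => Q (n + j)) 0 := by
  rw [zd_iff] at h ⊢
  intro ε hε
  obtain ⟨N0, h0⟩ := eventually_atTop.1 (h (ε / 2) (by positivity))
  refine eventually_atTop.2 ⟨max N0 j, fun N hN => ?_⟩
  have h1 := h0 (N + j) (by have := le_max_left N0 j; omega)
  have h2 : cnt (fun n => Q (n + j)) N ≤ cnt Q (N + j) := by
    classical
    rw [cnt_eq, cnt_eq]
    have : ((Icc 1 N).filter (fun n => Q (n + j))).card ≤ ((Icc 1 (N + j)).filter Q).card := by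
      apply card_le_card_of_injOn (fun n => n + j)
      · intro n hn
        rw [mem_coe, mem_filter, mem_Icc] at hn ⊢
        obtain ⟨⟨u1, u2⟩, u3⟩ := hn
        exact ⟨⟨Nat.le_add_right_of_le u1, Nat.add_le_add_right u2 j⟩, u3⟩
      · intro a _ b _ hab
        simp only at hab
        omega
    exact_mod_cast this
  have h3 : (j : ℝ) ≤ N := by exact_mod_cast (le_max_right N0 j).trans hN
  push_cast at h1
  nlinarith

theorem next_j {P : ℕ → Prop} (hE : Dn (fun n => ¬ (P n ↔ P (n + 1))) 0) (j : ℕ) :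
    Dn (fun n => ¬ (P n ↔ P (n + j))) 0 := by
  induction j with
  | zero =>
    refine zd_or hE hE fun n _ h => ?_
    exact absurd Iff.rfl h
  | succ j ih =>
    refine zd_or ih (dn_shift hE j) fun n _ h => ?_
    by_contra hcon
    push Not at hcon
    apply h
    rw [hcon.1, hcon.2, add_assoc]

theorem shift_one (F : ℕ → ℝ) (j N : ℕ) :
    ∑ n ∈ Icc 1 N, F (n + (j + 1)) - ∑ n ∈ Icc 1 N, F (n + j) = F (N + (j + 1)) - F (j + 1) := by
  induction N with
  | zero => simp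
  | succ N ih =>
    rw [sum_Icc_succ_top (by omega), sum_Icc_succ_top (by omega)]
    have e : N + 1 + j = N + (j + 1) := by omega
    rw [e]
    linarith

theorem shift_sum {F : ℕ → ℝ} {B : ℝ} (hB : ∀ n, |F n| ≤ B) (N j : ℕ) :
    |∑ n ∈ Icc 1 N, F (n + j) - ∑ n ∈ Icc 1 N, F n| ≤ 2 * j * B := by
  induction j with
  | zero => simp
  | succ j ih =>
    have h1 := shift_one F j N
    have h2 : ∑ n ∈ Icc 1 N, F (n + (j + 1)) - ∑ n ∈ Icc 1 N, F n =
        (F (N + (j + 1)) - F (j + 1)) + (∑ n ∈ Icc 1 N, F (n + j) - ∑ n ∈ Icc 1 N, F n) := by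
      rw [← h1]; ring
    rw [h2]
    refine (abs_add_le _ _).trans ?_
    have h3 : |F (N + (j + 1)) - F (j + 1)| ≤ 2 * B := by
      have h4 := abs_le.1 (hB (N + (j + 1)))
      have h5 := abs_le.1 (hB (j + 1))
      rw [abs_le]
      constructor <;> linarith
    push_cast
    linarith

/-- sequences with small averages in almost all short intervals -/
def Sh (G : ℕ → ℝ) : Prop := ∀ ε : ℝ, 0 < ε → ∃ H : ℕ, 1 ≤ H ∧ ∀ᶠ N : ℕ in atTop,
  cnt (fun n => ε * H < |∑ j ∈ range H, G (n + j)|) N ≤ ε * N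

theorem sh_orth {G : ℕ → ℝ} {B : ℝ} (hB : ∀ n, |G n| ≤ B) (hG : Sh G) {P : ℕ → Prop}
    (hE : Dn (fun n => ¬ (P n ↔ P (n + 1))) 0) : Mn (fun n => G n * ind P n) 0 := by
  classical
  apply mn_zero_of
  intro ε hε
  have hB0 : 0 ≤ B := (abs_nonneg _).trans (hB 0)
  set η : ℝ := ε / (2 + 2 * B) with hη
  have hη0 : 0 < η := by positivity
  have hηe : η * (2 + 2 * B) = ε := by
    rw [hη]; field_simp
  obtain ⟨H, hH, h1⟩ := hG η hη0
  have hH0 : (0 : ℝ) < H := by exact_mod_cast (by omega : 0 < H)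
  have h2 : ∀ᶠ N : ℕ in atTop, ∀ j ∈ range H, cnt (fun n => ¬ (P n ↔ P (n + j))) N ≤ η * N :=
    (eventually_all_finset (range H)).2 fun j _ => zd_iff.1 (next_j hE j) η hη0
  obtain ⟨N0, h3⟩ := eventually_atTop.1 (h1.and h2)
  refine ⟨max N0 (⌈2 * H * B / η⌉₊), fun N hN => ?_⟩
  obtain ⟨g1, g2⟩ := h3 N ((le_max_left _ _).trans hN)
  have g3 : 2 * H * B ≤ η * N := by
    have : 2 * H * B / η ≤ N := (Nat.le_ceil _).trans (by exact_mod_cast (le_max_right _ _).trans hN)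
    rw [div_le_iff₀ hη0] at this
    linarith
  set F : ℕ → ℝ := fun n => G n * ind P n with hF
  have hFB : ∀ n, |F n| ≤ B := by
    intro n
    rw [hF]
    simp only
    rw [abs_mul]
    calc |G n| * |ind P n| ≤ B * 1 := mul_le_mul (hB n) (ind_abs P n) (abs_nonneg _) hB0
      _ = B := mul_one B
  -- the average over the shifts
  have k1 : |(H : ℝ) * ∑ n ∈ Icc 1 N, F n - ∑ j ∈ range H, ∑ n ∈ Icc 1 N, F (n + j)| ≤ H * (2 * H * B) := by
    have e : (H : ℝ) * ∑ n ∈ Icc 1 N, F n - ∑ j ∈ range H, ∑ n ∈ Icc 1 N, F (n + j) =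
        ∑ j ∈ range H, (∑ n ∈ Icc 1 N, F n - ∑ n ∈ Icc 1 N, F (n + j)) := by
      rw [sum_sub_distrib, sum_const, card_range, nsmul_eq_mul]
    rw [e]
    refine (abs_sum_le_sum_abs _ _).trans ?_
    refine (sum_le_card_nsmul _ _ (2 * H * B) fun j hj => ?_).trans ?_
    · rw [abs_sub_comm]
      refine (shift_sum hFB N j).trans ?_
      have : (j : ℝ) ≤ H := by exact_mod_cast (mem_range.1 hj).le
      gcongr
    · rw [card_range, nsmul_eq_mul]
  have k2 : ∑ j ∈ range H, ∑ n ∈ Icc 1 N, F (n + j) =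
      ∑ n ∈ Icc 1 N, ind P n * ∑ j ∈ range H, G (n + j) +
      ∑ j ∈ range H, ∑ n ∈ Icc 1 N, G (n + j) * (ind P (n + j) - ind P n) := by
    rw [sum_comm (s := range H) (t := Icc 1 N) (f := fun j n => G (n + j) * (ind P (n + j) - ind P n)),
      sum_comm (s := range H) (t := Icc 1 N) (f := fun j n => F (n + j)), ← sum_add_distrib]
    refine sum_congr rfl fun n _ => ?_
    rw [mul_sum, ← sum_add_distrib]
    refine sum_congr rfl fun j _ => ?_
    rw [hF]
    ring
  have k3 : |∑ n ∈ Icc 1 N, ind P n * ∑ j ∈ range H, G (n + j)| ≤ H * (η * N + B * (η * N)) := by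
    refine (abs_sum_le_sum_abs _ _).trans ?_
    have h4 : ∀ n ∈ Icc 1 N, |ind P n * ∑ j ∈ range H, G (n + j)| ≤
        η * H + H * B * ind (fun n => η * H < |∑ j ∈ range H, G (n + j)|) n := by
      intro n _
      rw [abs_mul]
      have h5 : |ind P n| * |∑ j ∈ range H, G (n + j)| ≤ |∑ j ∈ range H, G (n + j)| := by
        have := ind_abs P n
        have := abs_nonneg (∑ j ∈ range H, G (n + j))
        nlinarith
      refine h5.trans ?_
      by_cases h6 : η * H < |∑ j ∈ range H, G (n + j)|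
      · rw [ind_of h6, mul_one]
        have h7 : |∑ j ∈ range H, G (n + j)| ≤ H * B := by
          refine (abs_sum_le_sum_abs _ _).trans ?_
          refine (sum_le_card_nsmul _ _ B fun j _ => hB _).trans ?_
          rw [card_range, nsmul_eq_mul]
        have : 0 ≤ η * H := by positivity
        linarith
      · rw [ind_not h6, mul_zero, add_zero]
        exact not_lt.1 h6
    refine (sum_le_sum h4).trans ?_
    rw [sum_add_distrib, sum_const, ← mul_sum, sum_ind, Nat.card_Icc, Nat.add_sub_cancel, nsmul_eq_mul]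
    have h8 : (H : ℝ) * B * cnt (fun n => η * H < |∑ j ∈ range H, G (n + j)|) N ≤ H * B * (η * N) := by
      gcongr
    linarith
  have k4 : |∑ j ∈ range H, ∑ n ∈ Icc 1 N, G (n + j) * (ind P (n + j) - ind P n)| ≤ H * (B * (η * N)) := by
    refine (abs_sum_le_sum_abs _ _).trans ?_
    refine (sum_le_card_nsmul _ _ (B * (η * N)) fun j hj => ?_).trans ?_
    · refine (abs_sum_le_sum_abs _ _).trans ?_
      have h4 : ∀ n ∈ Icc 1 N, |G (n + j) * (ind P (n + j) - ind P n)| ≤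
          B * ind (fun n => ¬ (P n ↔ P (n + j))) n := by
        intro n _
        rw [abs_mul]
        refine mul_le_mul (hB _) ?_ (abs_nonneg _) hB0
        by_cases h5 : P n <;> by_cases h6 : P (n + j)
        · rw [ind_of h5, ind_of h6]; simpa using ind_nonneg _ n
        · rw [ind_of h5, ind_not h6, ind_of (P := fun n => ¬ (P n ↔ P (n + j))) (by tauto)]; norm_num
        · rw [ind_not h5, ind_of h6, ind_of (P := fun n => ¬ (P n ↔ P (n + j))) (by tauto)]; norm_num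
        · rw [ind_not h5, ind_not h6]; simpa using ind_nonneg _ n
      refine (sum_le_sum h4).trans ?_
      rw [← mul_sum, sum_ind]
      exact mul_le_mul_of_nonneg_left (g2 j hj) hB0
    · rw [card_range, nsmul_eq_mul]
  have k5 : (H : ℝ) * |∑ n ∈ Icc 1 N, F n| ≤ H * (2 * H * B + (η * N + B * (η * N)) + B * (η * N)) := by
    have e : (H : ℝ) * |∑ n ∈ Icc 1 N, F n| = |(H : ℝ) * ∑ n ∈ Icc 1 N, F n| := by
      rw [abs_mul, abs_of_pos hH0]
    rw [e]
    have e2 : (H : ℝ) * ∑ n ∈ Icc 1 N, F n = ((H : ℝ) * ∑ n ∈ Icc 1 N, F n - ∑ j ∈ range H, ∑ n ∈ Icc 1 N, F (n + j)) +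
        (∑ n ∈ Icc 1 N, ind P n * ∑ j ∈ range H, G (n + j) +
      ∑ j ∈ range H, ∑ n ∈ Icc 1 N, G (n + j) * (ind P (n + j) - ind P n)) := by
      rw [← k2]; ring
    rw [e2]
    refine (abs_add_le _ _).trans ?_
    have := abs_add_le (∑ n ∈ Icc 1 N, ind P n * ∑ j ∈ range H, G (n + j))
      (∑ j ∈ range H, ∑ n ∈ Icc 1 N, G (n + j) * (ind P (n + j) - ind P n))
    nlinarith
  have k6 := le_of_mul_le_mul_left k5 hH0
  refine k6.trans ?_
  rw [← hηe]
  nlinarith

end Pool.Agent.TH465.OM
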