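import Mathlib
import Pool.Agent.H426R3.CL.Lam
import Pool.Agent.TH465.EX.B
import Pool.Agent.TH465.OM.A

/-! Almost locally constant properties and the Liouville and Möbius functions. -/

set_option autoImplicit false

namespace Pool.Agent.TH465.OM
open Finset Filter Topology
open Pool.Agent.H426R3.CL (SmallAvg LocConst orth gl gl_small gm gm_small)
open Pool.Agent.H376R2.MR (lam)
open Pool.Agent.H499R2.ND (Dn cnt cnt_eq cnt_mono cnt_or zd_iff zd_or zd_mono Tn Bdd Bdd_inv AK AK_mod AK_of_bound rK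
  prog_density)
open Pool.Agent.H499R2.HL (H run_H)
open Pool.Agent.H499R2.CO (HD HD_not Slow_one)
open Pool.Agent.TH465.EX (BB exc_small)

theorem locConst_ind {P : ℕ → Prop} (h : Dn (fun n => ¬ (P n ↔ P (n + 1))) 0) : LocConst (ind P) := by
  classical
  intro ε hε
  obtain ⟨N0, h0⟩ := eventually_atTop.1 (zd_iff.1 h ε hε)
  refine ⟨N0, fun N hN => ?_⟩
  refine le_trans ?_ (h0 N hN)
  rw [cnt_eq]
  refine Nat.cast_le.2 (card_le_card ?_)
  intro n hn
  rw [mem_filter] at hn ⊢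
  refine ⟨hn.1, fun h1 => hn.2 ?_⟩
  by_cases h2 : P n
  · rw [ind_of h2, ind_of (h1.1 h2)]
  · rw [ind_not h2, ind_not (fun h3 => h2 (h1.2 h3))]

theorem small_mn {g : ℕ → ℤ} (hg : SmallAvg g) {P : ℕ → Prop} (h : Dn (fun n => ¬ (P n ↔ P (n + 1))) 0) :
    Mn (fun n => (g n : ℝ) * ind P n) 0 :=
  mn_zero_of fun _ hε => orth hg (ind_abs P) (locConst_ind h) hε

/-- parity split -/
theorem par_of_mn {P : ℕ → Prop} {l : ℝ} (h : Dn P l) (hm : Mn (fun n => (lam n : ℝ) * ind P n) 0) (e : ℕ) :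
    Dn (fun n => ArithmeticFunction.cardFactors n % 2 = e % 2 ∧ P n) (l / 2) := by
  rw [← mn_ind]
  have h1 := mn_add (mn_smul (1 / 2) (mn_ind.2 h)) (mn_smul ((-1 : ℝ) ^ e / 2) hm)
  have e1 : 1 / 2 * l + (-1 : ℝ) ^ e / 2 * 0 = l / 2 := by ring
  rw [e1] at h1
  refine mn_congr h1 fun n _ => ?_
  have e2 : ((lam n : ℤ) : ℝ) = (-1 : ℝ) ^ (ArithmeticFunction.cardFactors n) := by
    unfold lam; push_cast; rfl
  rw [e2]
  generalize hk : ArithmeticFunction.cardFactors n = k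
  by_cases hp : P n
  · rw [ind_of hp]
    rcases Nat.even_or_odd k with h2 | h2 <;> rcases Nat.even_or_odd e with h3 | h3
    · rw [ind_of (P := fun n => ArithmeticFunction.cardFactors n % 2 = e % 2 ∧ P n)
        ⟨by rw [hk, Nat.even_iff.1 h2, Nat.even_iff.1 h3], hp⟩, h2.neg_one_pow, h3.neg_one_pow]
      norm_num
    · rw [ind_not (P := fun n => ArithmeticFunction.cardFactors n % 2 = e % 2 ∧ P n)
        (fun h4 => by rw [hk, Nat.even_iff.1 h2, Nat.odd_iff.1 h3] at h4; exact absurd h4.1 (by norm_num)),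
        h2.neg_one_pow, h3.neg_one_pow]
      norm_num
    · rw [ind_not (P := fun n => ArithmeticFunction.cardFactors n % 2 = e % 2 ∧ P n)
        (fun h4 => by rw [hk, Nat.odd_iff.1 h2, Nat.even_iff.1 h3] at h4; exact absurd h4.1 (by norm_num)),
        h2.neg_one_pow, h3.neg_one_pow]
      norm_num
    · rw [ind_of (P := fun n => ArithmeticFunction.cardFactors n % 2 = e % 2 ∧ P n)
        ⟨by rw [hk, Nat.odd_iff.1 h2, Nat.odd_iff.1 h3], hp⟩, h2.neg_one_pow, h3.neg_one_pow]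
      norm_num
  · rw [ind_not hp, ind_not (P := fun n => ArithmeticFunction.cardFactors n % 2 = e % 2 ∧ P n) (fun h4 => hp h4.2)]
    ring

/-- parity of the number of prime factors in residue classes -/
theorem par_class {P : ℕ → Prop} {l : ℝ} (hP : Dn P l) (hE : Dn (fun n => ¬ (P n ↔ P (n + 1))) 0) (e : ℕ)
    {Q : ℕ} (hQ : 1 ≤ Q) (r : ℕ) :
    Dn (fun n => ArithmeticFunction.cardFactors n % 2 = e % 2 ∧ (n % Q = r % Q ∧ P n)) (l / Q / 2) := by
  refine par_of_mn (prog_density hP hE hQ r) ?_ e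
  refine mn_congr (small_mn (gl_small hQ r) hE) fun n _ => ?_
  unfold gl
  by_cases h1 : n % Q = r % Q
  · rw [if_pos h1]
    by_cases h2 : P n
    · rw [ind_of h2, ind_of (P := fun n => n % Q = r % Q ∧ P n) ⟨h1, h2⟩]
    · rw [ind_not h2, ind_not (P := fun n => n % Q = r % Q ∧ P n) (fun h3 => h2 h3.2)]
  · rw [if_neg h1, ind_not (P := fun n => n % Q = r % Q ∧ P n) (fun h3 => h1 h3.1)]
    simp

/-- the Möbius function in residue classes -/
theorem mob_class {P : ℕ → Prop} (hE : Dn (fun n => ¬ (P n ↔ P (n + 1))) 0) {Q : ℕ} (hQ : 1 ≤ Q) (r : ℕ) :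
    Mn (fun n => (ArithmeticFunction.moebius n : ℝ) * ind (fun n => n % Q = r % Q ∧ P n) n) 0 := by
  refine mn_congr (small_mn (gm_small hQ r) hE) fun n _ => ?_
  unfold gm
  by_cases h1 : n % Q = r % Q
  · rw [if_pos h1]
    by_cases h2 : P n
    · rw [ind_of h2, ind_of (P := fun n => n % Q = r % Q ∧ P n) ⟨h1, h2⟩]
    · rw [ind_not h2, ind_not (P := fun n => n % Q = r % Q ∧ P n) (fun h3 => h2 h3.2)]
  · rw [if_neg h1, ind_not (P := fun n => n % Q = r % Q ∧ P n) (fun h3 => h1 h3.1)]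
    simp

theorem mn_AK {P : ℕ → Prop} (hE : Dn (fun n => ¬ (P n ↔ P (n + 1))) 0) (K : ℕ) (L : ℝ) :
    Mn (fun n => (lam n : ℝ) * ind (fun n => AK K L n ∧ P n) n) 0 := by
  classical
  have h1 := mn_sum ((range (2 ^ K)).filter (AK K L)) (f := fun r n => ((gl (2 ^ K) r n : ℤ) : ℝ) * ind P n)
    (fun r _ => small_mn (gl_small (by positivity) r) hE)
  refine mn_congr h1 fun n _ => ?_
  by_cases h2 : AK K L n
  · rw [sum_eq_single (n % 2 ^ K)]
    · unfold gl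
      rw [if_pos (Nat.mod_mod _ _).symm]
      by_cases h3 : P n
      · rw [ind_of h3, ind_of (P := fun n => AK K L n ∧ P n) ⟨h2, h3⟩]
      · rw [ind_not h3, ind_not (P := fun n => AK K L n ∧ P n) (fun h4 => h3 h4.2)]
    · intro r hr hne
      rw [mem_filter, mem_range] at hr
      unfold gl
      rw [if_neg]
      · simp
      · rw [Nat.mod_eq_of_lt hr.1]
        exact fun h => hne h.symm
    · intro h3
      exfalso
      apply h3
      rw [mem_filter, mem_range, AK_mod]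
      exact ⟨Nat.mod_lt _ (by positivity), h2⟩
  · rw [ind_not (P := fun n => AK K L n ∧ P n) (fun h4 => h2 h4.1), mul_zero]
    refine sum_eq_zero fun r hr => ?_
    rw [mem_filter, mem_range] at hr
    unfold gl
    rw [if_neg]
    · simp
    · rw [Nat.mod_eq_of_lt hr.1]
      intro h3
      apply h2
      rw [← AK_mod, h3]
      exact hr.2

/-- excursions -/
theorem mn_exc {β : ℝ} (hβ : Dn Bdd β) {P : ℕ → Prop} (hPB : ∀ n, P n → Bdd n)
    (hE : Dn (fun n => ¬ (P n ↔ P (n + 1))) 0) {L : ℝ} (hl : 1 ≤ L) :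
    Mn (fun n => (lam n : ℝ) * ind (fun n => P n ∧ ∀ k, ((Tn^[k] n : ℕ) : ℝ) ≤ L * n) n) 0 := by
  apply mn_zero_of
  intro ε hε
  obtain ⟨K, hK⟩ := exc_small hβ hl (show 0 < ε / 2 by positivity)
  obtain ⟨N1, hN1⟩ := hK K le_rfl
  obtain ⟨N2, hN2⟩ := of_mn_zero (mn_AK hE K L) (show 0 < ε / 2 by positivity)
  refine ⟨max N1 N2, fun N hN => ?_⟩
  have g1 := hN1 N ((le_max_left _ _).trans hN)
  have g2 := hN2 N ((le_max_right _ _).trans hN)
  have e : ∑ n ∈ Icc 1 N, (lam n : ℝ) * ind (fun n => P n ∧ ∀ k, ((Tn^[k] n : ℕ) : ℝ) ≤ L * n) n =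
      ∑ n ∈ Icc 1 N, (lam n : ℝ) * ind (fun n => AK K L n ∧ P n) n +
      ∑ n ∈ Icc 1 N, (lam n : ℝ) * (ind (fun n => P n ∧ ∀ k, ((Tn^[k] n : ℕ) : ℝ) ≤ L * n) n -
        ind (fun n => AK K L n ∧ P n) n) := by
    rw [← sum_add_distrib]
    refine sum_congr rfl fun n _ => ?_
    ring
  rw [e]
  refine (abs_add_le _ _).trans ?_
  have g3 : |∑ n ∈ Icc 1 N, (lam n : ℝ) * (ind (fun n => P n ∧ ∀ k, ((Tn^[k] n : ℕ) : ℝ) ≤ L * n) n -
        ind (fun n => AK K L n ∧ P n) n)| ≤ cnt (BB K L) N := by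
    refine (abs_sum_le_sum_abs _ _).trans ?_
    rw [← sum_ind]
    refine sum_le_sum fun n hn => ?_
    rw [mem_Icc] at hn
    rw [abs_mul]
    have h1 : |((lam n : ℤ) : ℝ)| ≤ 1 := by exact_mod_cast Pool.Agent.H426R3.CL.lam_abs n
    have h2 : |ind (fun n => P n ∧ ∀ k, ((Tn^[k] n : ℕ) : ℝ) ≤ L * n) n - ind (fun n => AK K L n ∧ P n) n| ≤
        ind (BB K L) n := by
      by_cases h3 : P n
      · by_cases h4 : ∀ k, ((Tn^[k] n : ℕ) : ℝ) ≤ L * n
        · rw [ind_of (P := fun n => P n ∧ ∀ k, ((Tn^[k] n : ℕ) : ℝ) ≤ L * n) ⟨h3, h4⟩,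
            ind_of (P := fun n => AK K L n ∧ P n) ⟨AK_of_bound hl hn.1 h4 K, h3⟩, sub_self, abs_zero]
          exact ind_nonneg _ _
        · by_cases h5 : AK K L n
          · rw [ind_not (P := fun n => P n ∧ ∀ k, ((Tn^[k] n : ℕ) : ℝ) ≤ L * n) (fun h6 => h4 h6.2),
              ind_of (P := fun n => AK K L n ∧ P n) ⟨h5, h3⟩, ind_of (P := BB K L) ⟨⟨h5, hPB n h3⟩, h4⟩]
            norm_num
          · rw [ind_not (P := fun n => P n ∧ ∀ k, ((Tn^[k] n : ℕ) : ℝ) ≤ L * n) (fun h6 => h4 h6.2),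
              ind_not (P := fun n => AK K L n ∧ P n) (fun h6 => h5 h6.1), sub_self, abs_zero]
            exact ind_nonneg _ _
      · rw [ind_not (P := fun n => P n ∧ ∀ k, ((Tn^[k] n : ℕ) : ℝ) ≤ L * n) (fun h6 => h3 h6.1),
          ind_not (P := fun n => AK K L n ∧ P n) (fun h6 => h3 h6.2), sub_self, abs_zero]
        exact ind_nonneg _ _
    calc _ ≤ 1 * ind (BB K L) n := mul_le_mul h1 h2 (abs_nonneg _) (by norm_num)
      _ = ind (BB K L) n := one_mul _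
  linarith

theorem fin_iff (n : ℕ) : (∃ k, Tn^[k] n = 1) ↔ ∃ k, H k n := by
  classical
  exact ⟨fun h => ⟨Nat.find h, Nat.find_spec h, fun i hi => Nat.find_min h hi⟩, fun ⟨k, hk⟩ => ⟨k, hk.1⟩⟩

theorem inf_next : Dn (fun n => ¬ ((¬ ∃ k, Tn^[k] n = 1) ↔ (¬ ∃ k, Tn^[k] (n + 1) = 1))) 0 := by
  have hrun := HD_not (run_H (Slow_one 1))
  rw [sub_self] at hrun
  have hrun' : Dn (fun n => ¬ ∀ h : ℕ, h ≤ 1 → ∀ k : ℕ, (H k (n + h) ↔ H k n) ∧
    (H k n → Pool.Agent.H499R2.LT.odn k (n + h) = Pool.Agent.H499R2.LT.odn k n)) 0 := hrun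
  refine zd_mono hrun' fun n _ h h' => h ?_
  rw [not_iff_not, fin_iff, fin_iff]
  exact exists_congr fun k => ((h' 1 le_rfl k).1).symm

end Pool.Agent.TH465.OM
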