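import Mathlib
import Pool.Agent.TH465.OM.B

/-! The laws of the total stopping times jointly with the parity of the number of prime factors. -/

set_option autoImplicit false

namespace Pool.Agent.TH465.OM
open Finset Filter Topology
open Pool.Agent.H376R2.MR (lam)
open Pool.Agent.H499R2.ND (Dn cnt Tn Bdd Phi phi_cdf)
open Pool.Agent.H499R2.HL (H Pev law_next Bdd_of_H joint_law)
open Pool.Agent.H499R2.CO (HD HD_not)
open Pool.Agent.H499R2.LT (law_one)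

theorem laws : ∃ (δ : ℝ) (q : ℝ → ℝ), 0 < δ ∧ δ ≤ 1 ∧ (δ = 1 ↔ ∀ n : ℕ, 1 ≤ n → ∃ k : ℕ, Tn^[k] n = 1) ∧
    (∀ L : ℝ, 1 ≤ L → 1 - 1 / L ≤ q L ∧ q L ≤ 1) ∧
    Dn (fun n => ¬ ∃ k, Tn^[k] n = 1) (1 - δ) ∧
    (∀ (m : ℕ) (a b : ℤ), 1 ≤ m → ∀ x : ℝ, Dn (Pev m a b x) (δ / m ^ 2 * Phi x) ∧
      Dn (fun n => ¬ (Pev m a b x n ↔ Pev m a b x (n + 1))) 0) ∧
    (∀ (m : ℕ) (a b : ℤ), 1 ≤ m → ∀ x L : ℝ, 1 ≤ L → ∀ e : ℕ,
      Dn (fun n => ArithmeticFunction.cardFactors n % 2 = e % 2 ∧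
        (Pev m a b x n ∧ ∀ k, ((Tn^[k] n : ℕ) : ℝ) ≤ L * n)) (δ / m ^ 2 * Phi x * q L / 2)) := by
  obtain ⟨δ, h0, h1, h2, h3, q, hq⟩ := joint_law
  obtain ⟨δ', _, _, _, h3', h4⟩ := law_one
  obtain ⟨β, _, _, _, hβ⟩ := Pool.Agent.H499R2.ND.Bdd_density
  have hδ : δ' = δ := tendsto_nhds_unique h3' h3
  subst hδ
  have hinf : Dn (fun n => ¬ ∃ k, Tn^[k] n = 1) (1 - δ') := by
    have h5 : HD (fun n => ∃ k, Tn^[k] n = 1) δ' := h3
    exact HD_not h5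
  have hP : ∀ (m : ℕ) (a b : ℤ), 1 ≤ m → ∀ x : ℝ, Dn (Pev m a b x) (δ' / m ^ 2 * Phi x) := by
    intro m a b hm x
    have h5 := (h4 m a b hm).2 x
    have e : δ' * ProbabilityTheory.cdf (ProbabilityTheory.gaussianReal 0 1) x / (m : ℝ) ^ 2
        = δ' / m ^ 2 * Phi x := by rw [phi_cdf]; ring
    rw [e] at h5
    exact h5
  refine ⟨δ', q, h0, h1, h2, fun L hL => ⟨(hq L hL).1, (hq L hL).2.1⟩, hinf, fun m a b hm x =>
    ⟨hP m a b hm x, law_next (hP m a b hm) x⟩, fun m a b hm x L hL e => ?_⟩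
  refine par_of_mn ((hq L hL).2.2.2 m a b hm x) ?_ e
  exact mn_exc hβ (fun n ⟨k, _, hk, _⟩ => Bdd_of_H hk) (law_next (hP m a b hm) x) hL

/-- what holds for almost locally constant properties -/
theorem basic {P : ℕ → Prop} {l : ℝ} (hP : Dn P l) (hE : Dn (fun n => ¬ (P n ↔ P (n + 1))) 0) :
    (∀ e Q r : ℕ, 1 ≤ Q → Dn (fun n => ArithmeticFunction.cardFactors n % 2 = e % 2 ∧ (n % Q = r % Q ∧ P n))
      (l / Q / 2)) ∧
    (∀ Q r : ℕ, 1 ≤ Q →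
      Mn (fun n => (ArithmeticFunction.moebius n : ℝ) * ind (fun n => n % Q = r % Q ∧ P n) n) 0) ∧
    (∀ (g : ℕ → ℝ) (α B : ℝ), (∀ n, |g n| ≤ B) → Sh (fun n => g n - α) → Mn (fun n => g n * ind P n) (α * l)) := by
  refine ⟨fun e Q r hQ => par_class hP hE e hQ r, fun Q r hQ => mob_class hE hQ r, fun g α B hB hg => ?_⟩
  have h1 := sh_orth (B := B + |α|) (fun n => (abs_sub _ _).trans (add_le_add (hB n) le_rfl)) hg hE
  have h2 := mn_add h1 (mn_smul α (mn_ind.2 hP))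
  rw [zero_add] at h2
  refine mn_congr h2 fun n _ => ?_
  ring

end Pool.Agent.TH465.OM
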