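import Mathlib
import Pool.Agent.H499R2.HL.E

/-! The law of the number of odd terms is that of an almost locally constant property. -/

set_option autoImplicit false

namespace Pool.Agent.TH465.OM
open Finset Filter Topology
open Pool.Agent.H499R2.ND (Dn cnt Tn IsHt cnt_or zd_iff Phi Phi_continuous phi_cdf large_log)
open Pool.Agent.H499R2.LT
open Pool.Agent.H499R2.HL
open Pool.Agent.H499R2.CO (HD HD_not Slow_one)

theorem bo_shift' (x : ℝ) {L l : ℝ} (hL : 0 ≤ L) (hl0 : 0 ≤ l) (hl : l ≤ Real.log 2) :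
    |bo x (L + l) - bo x L| ≤ Real.log 2 / nu + |x| * (Real.log 2 * rr) := by
  have hl2 : 0 < Real.log 2 := Real.log_pos (by norm_num)
  have hl21 : Real.log 2 ≤ 1 := by linarith [Real.log_two_lt_d9]
  have hrr := rr_pos
  have hnu := nu_pos
  unfold bo
  rw [sqrt_rr, sqrt_rr]
  have e : 1 / Real.log (4 / 3) * (L + l) + x * (Real.log 2 * (rr * Real.sqrt (L + l)))
      - (1 / Real.log (4 / 3) * L + x * (Real.log 2 * (rr * Real.sqrt L)))
      = l / nu + x * ((Real.log 2 * rr) * (Real.sqrt (L + l) - Real.sqrt L)) := by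
    unfold nu; ring
  rw [e]
  have h1 : 0 ≤ Real.sqrt (L + l) - Real.sqrt L := by
    linarith [Real.sqrt_le_sqrt (show L ≤ L + l by linarith)]
  have h2 : Real.sqrt (L + l) - Real.sqrt L ≤ 1 := by
    have h3 := sqrt_add hL hl0
    have h4 : Real.sqrt l ≤ 1 := Real.sqrt_le_one.2 (hl.trans hl21)
    linarith
  refine (abs_add_le _ _).trans ?_
  rw [abs_of_nonneg (by positivity : (0 : ℝ) ≤ l / nu), abs_mul,
    abs_of_nonneg (mul_nonneg (by positivity : (0 : ℝ) ≤ Real.log 2 * rr) h1)]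
  have h5 : Real.log 2 * rr * (Real.sqrt (L + l) - Real.sqrt L) ≤ Real.log 2 * rr := by
    have : 0 < Real.log 2 * rr := by positivity
    nlinarith
  have h6 := mul_le_mul_of_nonneg_left h5 (abs_nonneg x)
  have h7 : l / nu ≤ Real.log 2 / nu := div_le_div_of_nonneg_right hl hnu.le
  linarith

/-- the event of the law of the number of odd terms -/
def Oev (m : ℕ) (b : ℤ) (x : ℝ) (n : ℕ) : Prop := ∃ k : ℕ, (odn k n : ℝ) ≤ bo x (Real.log n) ∧ H k n ∧
  (odn k n : ℤ) ≡ b [ZMOD m]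

theorem oev_next {c : ℝ} {m : ℕ} {b : ℤ} (h : ∀ x : ℝ, Dn (Oev m b x) (c * Phi x)) (x : ℝ) :
    Dn (fun n => ¬ (Oev m b x n ↔ Oev m b x (n + 1))) 0 := by
  have hl2 : 0 < Real.log 2 := Real.log_pos (by norm_num)
  have hrr := rr_pos
  have hrun := HD_not (run_H (Slow_one 1))
  rw [sub_self] at hrun
  have hrun' : Dn (fun n => ¬ ∀ h : ℕ, h ≤ 1 → ∀ k : ℕ, (H k (n + h) ↔ H k n) ∧
    (H k n → odn k (n + h) = odn k n)) 0 := hrun
  refine next_family (F := fun x => c * Phi x) (Phi_continuous.const_mul _) h ?_ x ?_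
  · rintro x y n hxy ⟨k, hk, hk'⟩
    refine ⟨k, hk.trans ?_, hk'⟩
    have h1 := bo_theta x (y - x) (Real.log n)
    rw [add_sub_cancel] at h1
    rw [h1]
    have : 0 ≤ (y - x) * (Real.log 2 * rr) * Real.sqrt (Real.log n) := by
      have : 0 ≤ y - x := by linarith
      positivity
    linarith
  · intro θ hθ η hη
    obtain ⟨E, hE, hE'⟩ := large_log (large_sqrt (Real.log 2 / nu + |x| * (Real.log 2 * rr))
      (show 0 < θ * (Real.log 2 * rr) by positivity)) (show 0 < η / 2 by positivity)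
    refine ⟨fun n => (¬ ∀ h : ℕ, h ≤ 1 → ∀ k : ℕ, (H k (n + h) ↔ H k n) ∧
      (H k n → odn k (n + h) = odn k n)) ∨ E n, ?_, fun n hn hnE => ?_⟩
    · filter_upwards [zd_iff.1 hrun' (η / 2) (by positivity), hE] with N h1 h2
      refine (cnt_or N fun n _ _ h => h).trans ?_
      linarith
    · rw [not_or, not_not] at hnE
      obtain ⟨hR, hEn⟩ := hnE
      obtain ⟨h1, h1'⟩ := hE' n hn hEn
      have hR1 := hR 1 le_rfl
      have hn0 : (0 : ℝ) < n := by exact_mod_cast hn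
      obtain ⟨l, hl0, hl2, hlog⟩ : ∃ l : ℝ, 0 ≤ l ∧ l ≤ Real.log 2 ∧
          Real.log ((n + 1 : ℕ) : ℝ) = Real.log n + l := by
        refine ⟨Real.log ((n + 1 : ℕ) : ℝ) - Real.log n, ?_, ?_, by ring⟩
        · rw [sub_nonneg]
          exact Real.log_le_log hn0 (by push_cast; linarith)
        · rw [sub_le_iff_le_add, ← Real.log_mul (by norm_num) hn0.ne']
          apply Real.log_le_log (by positivity)
          push_cast
          have : (1 : ℝ) ≤ n := by exact_mod_cast hn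
          linarith
      have h2 := abs_le.1 (bo_shift' x h1' hl0 hl2)
      constructor
      · rintro ⟨k, hk, hH, hk2⟩
        refine ⟨k, ?_, (hR1 k).1.2 hH, by rw [(hR1 k).2 hH]; exact hk2⟩
        rw [hlog, (hR1 k).2 hH]
        have h3 := bo_theta (x - θ) θ (Real.log n)
        rw [sub_add_cancel] at h3
        linarith [h2.1]
      · rintro ⟨k, hk, hH, hk2⟩
        have hH' := (hR1 k).1.1 hH
        rw [(hR1 k).2 hH'] at hk hk2
        refine ⟨k, ?_, hH', hk2⟩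
        rw [hlog] at hk
        have h3 := bo_theta x θ (Real.log n)
        linarith [h2.2]

/-- the law for all integers -/
theorem oev_law : ∃ δ : ℝ, 0 < δ ∧ δ ≤ 1 ∧ (δ = 1 ↔ ∀ n : ℕ, 1 ≤ n → ∃ k : ℕ, Tn^[k] n = 1) ∧
    Dn (fun n => ∃ k : ℕ, Tn^[k] n = 1) δ ∧
    ∀ (q : ℕ) (b : ℤ), 1 ≤ q → ∀ x : ℝ, Dn (Oev q b x) (δ / q * Phi x) ∧
      Dn (fun n => ¬ (Oev q b x n ↔ Oev q b x (n + 1))) 0 := by
  obtain ⟨δ, h0, h1, h2, h3, h4⟩ := law_k
  have h5 : ∀ (q : ℕ) (b : ℤ), 1 ≤ q → ∀ x : ℝ, Dn (Oev q b x) (δ / q * Phi x) := fun q b hq x =>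
    law_o (h4 q b hq).2 x
  exact ⟨δ, h0, h1, h2, h3, fun q b hq x => ⟨h5 q b hq x, oev_next (h5 q b hq) x⟩⟩

end Pool.Agent.TH465.OM
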