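import Mathlib
import Pool.Agent.H499R2.NDHt
import Pool.Agent.TH465.OM.C
import Pool.Agent.TH465.OM.D

/-! Weighted truncated averages. -/

set_option autoImplicit false

namespace Pool.Agent.TH465.OM
open Finset Filter Topology
open Pool.Agent.H499R2.ND (Dn cnt cnt_eq cnt_or cnt_small Tn IsHt Bas zd_iff zd_mono)

/-- the truncated times are close to a step function -/
theorem trunc_close {c Λ : ℝ} (hc : 0 < c) (hΛ : c < Λ) {B R : ℕ → Prop} {H : ℕ → ℕ → Prop} {f : ℝ → ℕ → ℝ}
    (hE : ∀ ε : ℝ, 0 < ε → Dn (fun m => R m ∧ B m ∧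
      ¬ ∃ h : ℕ, H m h ∧ |(h : ℝ) - c * Real.log m| ≤ ε * Real.log m) 0)
    (hf1 : ∀ t m h, H m h → f t m = min (h : ℝ) t) (hf2 : ∀ t m, R m → ¬ B m → f t m = t)
    (hf3 : ∀ t m, 0 ≤ t → 0 ≤ f t m ∧ f t m ≤ t) {w : ℕ → ℝ} {W : ℝ} (hw : ∀ n, |w n| ≤ W)
    (hR : ∀ n, ¬ R n → w n = 0) :
    Tendsto (fun N : ℕ => (∑ m ∈ Icc 1 N, w m * (f (Λ * Real.log N) m / Real.log N -
      (c * ind B m + Λ * ind (fun n => ¬ B n) m))) / N) atTop (𝓝 0) := by
  classical
  have hW : 0 ≤ W := (abs_nonneg _).trans (hw 0)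
  have hΛ0 : 0 < Λ := hc.trans hΛ
  rw [Metric.tendsto_atTop]
  intro ε hε
  set D : ℝ := W * (2 + 4 * Λ) + 1 with hD
  have hD0 : 0 < D := by positivity
  set η : ℝ := min (ε / (2 * D)) (min c (Λ - c)) with hη
  have hη0 : 0 < η := lt_min (by positivity) (lt_min hc (by linarith))
  have hη1 : η ≤ ε / (2 * D) := min_le_left _ _
  have hη2 : η ≤ c := (min_le_right _ _).trans (min_le_left _ _)
  have hη3 : η ≤ Λ - c := (min_le_right _ _).trans (min_le_right _ _)
  have hηD : η * D ≤ ε / 2 := by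
    rw [le_div_iff₀ (by positivity)] at hη1
    linarith
  have hlogN : Tendsto (fun N : ℕ => Real.log (N : ℝ)) atTop atTop :=
    Real.tendsto_log_atTop.comp tendsto_natCast_atTop_atTop
  have hev := (zd_iff.1 (hE η hη0) η hη0).and ((hlogN.eventually_ge_atTop (max 1 (c * |Real.log η| / η))).and
    (eventually_gt_atTop 0))
  obtain ⟨N0, hN0⟩ := eventually_atTop.1 hev
  refine ⟨N0, fun N hN => ?_⟩
  obtain ⟨h1, h2, h3⟩ := hN0 N hN
  have hNR : (0 : ℝ) < N := by exact_mod_cast h3
  set L := Real.log (N : ℝ) with hL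
  have hL1 : 1 ≤ L := (le_max_left _ _).trans h2
  have hL0 : 0 < L := by linarith
  have hL2 : c * |Real.log η| ≤ η * L := by
    have := (le_max_right _ _).trans h2
    rw [div_le_iff₀ hη0] at this
    linarith
  set Bad : ℕ → Prop := fun m => (R m ∧ B m ∧
      ¬ ∃ h : ℕ, H m h ∧ |(h : ℝ) - c * Real.log m| ≤ η * Real.log m) ∨ (m : ℝ) ≤ η * N with hBad
  have hBadc : cnt Bad N ≤ 2 * η * N := by
    have g1 : cnt Bad N ≤ cnt (fun m => R m ∧ B m ∧
      ¬ ∃ h : ℕ, H m h ∧ |(h : ℝ) - c * Real.log m| ≤ η * Real.log m) N + cnt (fun m : ℕ => (m : ℝ) ≤ η * N) N :=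
      cnt_or N fun n _ _ h => h
    have g2 := cnt_small (t := η * N) (by positivity) N
    linarith
  have hpt : ∀ m ∈ Icc 1 N, |w m * (f (Λ * L) m / L - (c * ind B m + Λ * ind (fun n => ¬ B n) m))| ≤
      W * (2 * η) + W * (2 * Λ) * ind Bad m := by
    intro m hm
    rw [mem_Icc] at hm
    have hm0 : (0 : ℝ) < m := by exact_mod_cast (by omega : 0 < m)
    have hmN : (m : ℝ) ≤ N := by exact_mod_cast hm.2
    by_cases hRm : R m
    · rw [abs_mul]
      have key : |f (Λ * L) m / L - (c * ind B m + Λ * ind (fun n => ¬ B n) m)| ≤ 2 * η + 2 * Λ * ind Bad m := by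
        obtain ⟨f1, f2⟩ := hf3 (Λ * L) m (by positivity)
        have f3 : 0 ≤ f (Λ * L) m / L := div_nonneg f1 hL0.le
        have f4 : f (Λ * L) m / L ≤ Λ := by
          rw [div_le_iff₀ hL0]; exact f2
        by_cases hB : B m
        · rw [ind_of hB, ind_not (P := fun n => ¬ B n) (not_not.2 hB), mul_one, mul_zero, add_zero]
          by_cases hbad : Bad m
          · rw [ind_of hbad, abs_le]
            constructor <;> linarith
          · rw [ind_not hbad, mul_zero, add_zero]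
            rw [hBad] at hbad
            simp only [not_or, not_and, not_not] at hbad
            obtain ⟨b1, b2⟩ := hbad
            obtain ⟨h, hh, hh'⟩ := b1 hRm hB
            rw [hf1 _ _ _ hh]
            have l1 : Real.log m ≤ L := Real.log_le_log hm0 hmN
            have l2 : L + Real.log η ≤ Real.log m := by
              rw [hL, ← Real.log_mul hNR.ne' hη0.ne']
              apply Real.log_le_log (by positivity)
              rw [not_le] at b2
              linarith
            have l3 : -|Real.log η| ≤ Real.log η := neg_abs_le _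
            obtain ⟨u1, u2⟩ := abs_le.1 hh'
            have l0 : 0 ≤ Real.log m := Real.log_nonneg (by exact_mod_cast hm.1)
            have e1 : (h : ℝ) ≤ (c + η) * L := by nlinarith
            have e2 : (c + η) * L ≤ Λ * L := mul_le_mul_of_nonneg_right (by linarith) hL0.le
            rw [min_eq_left (e1.trans e2)]
            have e3 : (c - η) * (L - |Real.log η|) ≤ h := by nlinarith
            have e4 : (c - 2 * η) * L ≤ (h : ℝ) := by
              have := abs_nonneg (Real.log η)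
              nlinarith
            have e5 : (h : ℝ) / L ≤ c + η := by rw [div_le_iff₀ hL0]; exact e1
            have e6 : c - 2 * η ≤ (h : ℝ) / L := by rw [le_div_iff₀ hL0]; exact e4
            rw [abs_le]
            constructor <;> linarith
        · rw [ind_not hB, ind_of (P := fun n => ¬ B n) hB, mul_one, mul_zero, zero_add, hf2 _ _ hRm hB,
            mul_div_cancel_right₀ _ hL0.ne', sub_self, abs_zero]
          have := ind_nonneg Bad m
          positivity
      calc |w m| * |f (Λ * L) m / L - (c * ind B m + Λ * ind (fun n => ¬ B n) m)| ≤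
            W * (2 * η + 2 * Λ * ind Bad m) := mul_le_mul (hw m) key (abs_nonneg _) hW
        _ = W * (2 * η) + W * (2 * Λ) * ind Bad m := by ring
    · rw [hR m hRm, zero_mul, abs_zero]
      have := ind_nonneg Bad m
      positivity
  have hsum : |∑ m ∈ Icc 1 N, w m * (f (Λ * L) m / L - (c * ind B m + Λ * ind (fun n => ¬ B n) m))| ≤
      W * (2 * η) * N + W * (2 * Λ) * (2 * η * N) := by
    refine (abs_sum_le_sum_abs _ _).trans ((sum_le_sum hpt).trans ?_)
    rw [sum_add_distrib, sum_const, ← mul_sum, sum_ind, Nat.card_Icc, Nat.add_sub_cancel, nsmul_eq_mul]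
    have : W * (2 * Λ) * cnt Bad N ≤ W * (2 * Λ) * (2 * η * N) :=
      mul_le_mul_of_nonneg_left hBadc (by positivity)
    linarith
  rw [Real.dist_eq, sub_zero, abs_div, abs_of_pos hNR, div_lt_iff₀ hNR]
  refine hsum.trans_lt ?_
  have e : W * (2 * η) * N + W * (2 * Λ) * (2 * η * N) = η * (W * (2 + 4 * Λ)) * N := by ring
  rw [e]
  have : η * (W * (2 + 4 * Λ)) ≤ η * D := by
    apply mul_le_mul_of_nonneg_left _ hη0.le
    rw [hD]; linarith
  nlinarith

/-- weighted truncated averages -/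
theorem trunc_w {c Λ : ℝ} (hc : 0 < c) (hΛ : c < Λ) {B R : ℕ → Prop} {H : ℕ → ℕ → Prop} {f : ℝ → ℕ → ℝ}
    (hE : ∀ ε : ℝ, 0 < ε → Dn (fun m => R m ∧ B m ∧
      ¬ ∃ h : ℕ, H m h ∧ |(h : ℝ) - c * Real.log m| ≤ ε * Real.log m) 0)
    (hf1 : ∀ t m h, H m h → f t m = min (h : ℝ) t) (hf2 : ∀ t m, R m → ¬ B m → f t m = t)
    (hf3 : ∀ t m, 0 ≤ t → 0 ≤ f t m ∧ f t m ≤ t) {w : ℕ → ℝ} {W : ℝ} (hw : ∀ n, |w n| ≤ W)
    (hR : ∀ n, ¬ R n → w n = 0) {A1 A2 : ℝ} (h1 : Mn (fun n => w n * ind B n) A1)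
    (h2 : Mn (fun n => w n * ind (fun n => ¬ B n) n) A2) :
    Tendsto (fun N : ℕ => (∑ m ∈ Icc 1 N, w m * f (Λ * Real.log N) m) / N / Real.log N) atTop
      (𝓝 (c * A1 + Λ * A2)) := by
  have h3 := trunc_close hc hΛ hE hf1 hf2 hf3 hw hR
  have h4 := mn_add (mn_smul c h1) (mn_smul Λ h2)
  have h5 := h3.add h4
  rw [zero_add] at h5
  refine h5.congr fun N => ?_
  have e : (∑ m ∈ Icc 1 N, w m * f (Λ * Real.log N) m) / N / Real.log N =
      (∑ m ∈ Icc 1 N, w m * (f (Λ * Real.log N) m / Real.log N)) / N := by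
    rw [div_right_comm, sum_div]
    congr 1
    exact sum_congr rfl fun m _ => mul_div_assoc _ _ _
  rw [e, ← add_div, ← sum_add_distrib]
  congr 1
  refine sum_congr rfl fun m _ => ?_
  ring

end Pool.Agent.TH465.OM
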